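import Pool.Agent.H54.KVA.Defs
import Pool.Agent.H32.Dense.Tail
import Pool.Agent.H72.STK.PR2
import Pool.Agent.H40.STK.PRD

/-!
# Conditional expectations and conditional variances
-/

set_option autoImplicit false

namespace Pool.KVA

open Finset Real MeasureTheory
open Pool.Agent.H49.Ent Pool.Agent.H32.Dense Pool.STK

/-- Tower property. -/
lemma Ex_tower {Ω T : Type} [Fintype Ω] {p : Ω → ℝ} (hp : ∀ ω, 0 ≤ p ω) (Z : Ω → T) (g : Ω → ℝ) :
    Ex p (fun ω => Ex (cond p Z (Z ω)) g) = Ex p g := by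
  classical
  unfold Ex
  simp_rw [Finset.mul_sum]
  rw [Finset.sum_comm]
  refine Finset.sum_congr rfl fun ω' _ => ?_
  have e1 : ∀ ω, p ω * (cond p Z (Z ω) ω' * g ω') =
      (p ω' * g ω' / law p Z (Z ω')) * (if Z ω = Z ω' then p ω else 0) := by
    intro ω
    unfold Pool.Agent.H49.Ent.cond
    by_cases h : Z ω' = Z ω
    · rw [if_pos h, if_pos h.symm, h]
      ring
    · rw [if_neg h, if_neg (fun h' => h h'.symm)]
      ring
  simp_rw [e1]
  rw [← Finset.mul_sum]
  have e2 : ∑ ω, (if Z ω = Z ω' then p ω else 0) = law p Z (Z ω') := by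
    unfold law
    rfl
  rw [e2]
  rcases (hp ω').eq_or_lt with h0 | h0
  · rw [← h0]
    ring
  · have hl := law_pos hp Z h0
    field_simp

/-- Expectation of a square deviation under a law. -/
lemma Ex_sq_sub {Ω : Type} [Fintype Ω] {q : Ω → ℝ} (h1 : ∑ ω, q ω = 1) (f : Ω → ℝ) (c : ℝ) :
    Ex q (fun ω => (f ω - c) ^ 2) = Var q f + (Ex q f - c) ^ 2 := by
  have e1 : Ex q (fun ω => (f ω - c) ^ 2) =
      Ex q (fun ω => f ω ^ 2) - 2 * c * Ex q f + c ^ 2 * ∑ ω, q ω := by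
    unfold Ex
    rw [Finset.mul_sum, Finset.mul_sum, ← Finset.sum_sub_distrib, ← Finset.sum_add_distrib]
    exact Finset.sum_congr rfl fun ω _ => by ring
  rw [e1, h1]
  unfold Var
  ring

/-- The conditional variance as a mean square deviation from the conditional mean. -/
lemma cVar_eq {Ω T : Type} [Fintype Ω] {p : Ω → ℝ} (hp : ∀ ω, 0 ≤ p ω) (f : Ω → ℝ) (Z : Ω → T) :
    Ex p (fun ω => (f ω - Ex (cond p Z (Z ω)) f) ^ 2) = cVar p f Z := by
  rw [← Ex_tower hp Z]
  unfold cVar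
  refine Finset.sum_congr rfl fun ω _ => ?_
  rcases (hp ω).eq_or_lt with h0 | h0
  · rw [← h0]
    ring
  · congr 1
    have h1 := sum_cond p Z (law_pos hp Z h0).ne'
    have h2 := Ex_sq_sub h1 f (Ex (cond p Z (Z ω)) f)
    have h3 : Ex (cond p Z (Z ω)) (fun ω' => (f ω' - Ex (cond p Z (Z ω')) f) ^ 2) =
        Ex (cond p Z (Z ω)) (fun ω' => (f ω' - Ex (cond p Z (Z ω)) f) ^ 2) := by
      refine Finset.sum_congr rfl fun ω' _ => ?_
      by_cases h : Z ω' = Z ω
      · beta_reduce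
        rw [h]
      · have h0 : cond p Z (Z ω) ω' = 0 := by
          unfold Pool.Agent.H49.Ent.cond
          rw [if_neg h]
        rw [h0]
        ring
    beta_reduce
    rw [h3, h2]
    ring

lemma cVar_nonneg {Ω T : Type} [Fintype Ω] {p : Ω → ℝ} (hp : ∀ ω, 0 ≤ p ω) (f : Ω → ℝ)
    (Z : Ω → T) : 0 ≤ cVar p f Z := by
  rw [← cVar_eq hp]
  exact Ex_nonneg hp fun ω _ => sq_nonneg _

end Pool.KVA
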