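import Pool.Agent.H93.KVA.Var

/-!
# Upper bound for the entropy of an integer part by the variance
-/

set_option autoImplicit false

namespace Pool.KVA

open Finset Real MeasureTheory
open Pool.Agent.H49.Ent Pool.Agent.H32.Dense Pool.STK

theorem up1_thm : UP1Stmt := by
  refine ⟨12, by norm_num, ?_⟩
  intro Ω T _ p f Z hp
  obtain ⟨hp0, hp1⟩ := hp
  set V := cVar p f Z with hV
  have hV0 : 0 ≤ V := cVar_nonneg hp0 f Z
  set s := Real.sqrt V with hs
  have hs0 : 0 ≤ s := Real.sqrt_nonneg V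
  have hs2 : s ^ 2 = V := Real.sq_sqrt hV0
  set M := ⌈1 + s⌉₊ with hM
  have hM1 : 1 + s ≤ (M : ℝ) := Nat.le_ceil _
  have hM2 : (M : ℝ) < 2 + s := by
    have := Nat.ceil_lt_add_one (a := 1 + s) (by linarith)
    linarith
  have hM0 : (0 : ℝ) < M := by linarith
  have hMn : 0 < M := by exact_mod_cast hM0
  -- the centered integer part
  have h1 : CH p (fun ω => ⌊f ω⌋) Z ≤
      CH p (fun ω => ⌊f ω⌋ - ⌊Ex (cond p Z (Z ω)) f⌋) Z := by
    refine CH_mono_left hp0 fun ω ω' _ _ h => ?_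
    simp only [Prod.mk.injEq] at h
    have h2 := h.1
    rw [h.2] at h2
    simpa using h2
  have h2 := CH_le_tail hMn hp0 hp1 (fun ω => ⌊f ω⌋ - ⌊Ex (cond p Z (Z ω)) f⌋) Z
  -- the mean logarithm
  have h3 : Ex p (fun ω => Real.log (1 + |((⌊f ω⌋ - ⌊Ex (cond p Z (Z ω)) f⌋ : ℤ) : ℝ)| / M)) ≤
      2 := by
    have a1 : Ex p (fun ω => Real.log (1 + |((⌊f ω⌋ - ⌊Ex (cond p Z (Z ω)) f⌋ : ℤ) : ℝ)| / M)) ≤
        Ex p (fun ω => (2 * (1 + s)) ⁻¹ / M * (f ω - Ex (cond p Z (Z ω)) f) ^ 2 +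
          ((1 + s) / 2 + 1) / M) := by
      refine Ex_mono hp0 fun ω _ => ?_
      set y := f ω - Ex (cond p Z (Z ω)) f with hy
      have b1 : |((⌊f ω⌋ - ⌊Ex (cond p Z (Z ω)) f⌋ : ℤ) : ℝ)| ≤ |y| + 1 := by
        push_cast
        have c1 := Int.floor_le (f ω)
        have c2 := Int.lt_floor_add_one (f ω)
        have c3 := Int.floor_le (Ex (cond p Z (Z ω)) f)
        have c4 := Int.lt_floor_add_one (Ex (cond p Z (Z ω)) f)
        have c5 := le_abs_self y
        have c6 := neg_abs_le y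
        rw [abs_le]
        constructor <;> linarith
      have b2 : |y| ≤ (2 * (1 + s))⁻¹ * y ^ 2 + (1 + s) / 2 := by
        have c1 : 0 < 1 + s := by linarith
        have c2 : 0 ≤ (|y| - (1 + s)) ^ 2 := sq_nonneg _
        have c3 : |y| ^ 2 = y ^ 2 := sq_abs y
        have c4 : (2 * (1 + s))⁻¹ * y ^ 2 + (1 + s) / 2 - |y| =
            (2 * (1 + s))⁻¹ * (|y| - (1 + s)) ^ 2 := by
          rw [← c3]
          field_simp
          ring
        have c5 : 0 ≤ (2 * (1 + s))⁻¹ * (|y| - (1 + s)) ^ 2 := by positivity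
        linarith
      have b3 : 0 ≤ |((⌊f ω⌋ - ⌊Ex (cond p Z (Z ω)) f⌋ : ℤ) : ℝ)| / M := by positivity
      have b4 := Real.log_le_sub_one_of_pos
        (x := 1 + |((⌊f ω⌋ - ⌊Ex (cond p Z (Z ω)) f⌋ : ℤ) : ℝ)| / M) (by linarith)
      have b5 : |((⌊f ω⌋ - ⌊Ex (cond p Z (Z ω)) f⌋ : ℤ) : ℝ)| / M ≤
          ((2 * (1 + s))⁻¹ * y ^ 2 + ((1 + s) / 2 + 1)) / M := by
        apply div_le_div_of_nonneg_right _ hM0.le
        linarith
      have b6 : ((2 * (1 + s))⁻¹ * y ^ 2 + ((1 + s) / 2 + 1)) / M =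
          (2 * (1 + s))⁻¹ / M * y ^ 2 + ((1 + s) / 2 + 1) / M := by ring
      linarith
    refine a1.trans ?_
    rw [Ex_add, Ex_smul, Ex_const hp1, cVar_eq hp0, ← hV, ← hs2]
    have c1 : 0 < 1 + s := by linarith
    have c2 : (2 * (1 + s))⁻¹ / M * s ^ 2 + ((1 + s) / 2 + 1) / M =
        (s ^ 2 / (2 * (1 + s)) + ((1 + s) / 2 + 1)) / M := by
      field_simp
    have c3 : s ^ 2 / (2 * (1 + s)) ≤ (1 + s) / 2 := by
      rw [div_le_div_iff₀ (by linarith) (by norm_num)]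
      nlinarith
    rw [c2, div_le_iff₀ hM0]
    linarith
  -- the logarithm of `M`
  have h4 : Real.log M ≤ 1 / 2 * Real.log (1 + V) + 1 := by
    have a1 : Real.log M ≤ Real.log (2 + s) := Real.log_le_log hM0 hM2.le
    have a2 : Real.log (2 + s) = 1 / 2 * Real.log ((2 + s) ^ 2) := by
      rw [Real.log_pow]
      push_cast
      ring
    have a3 : Real.log ((2 + s) ^ 2) ≤ Real.log (6 * (1 + V)) := by
      apply Real.log_le_log (by positivity)
      rw [← hs2]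
      nlinarith [sq_nonneg (s - 1)]
    have a4 : Real.log (6 * (1 + V)) = Real.log 6 + Real.log (1 + V) :=
      Real.log_mul (by norm_num) (by positivity)
    have a5 : Real.log 6 ≤ 2 := by
      rw [Real.log_le_iff_le_exp (by norm_num)]
      have := Real.exp_one_gt_d9
      calc (6 : ℝ) ≤ (2.7) ^ 2 := by norm_num
        _ ≤ (Real.exp 1) ^ 2 := by gcongr; linarith
        _ = Real.exp 2 := by rw [← Real.exp_nat_mul]; norm_num
    linarith
  linarith

end Pool.KVA
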