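import Pool.Agent.H93.KVA.Var

/-!
# The conditional variance of a sum of independent variables
-/

set_option autoImplicit false

namespace Pool.KVA

open Finset Real MeasureTheory
open Pool.Agent.H49.Ent Pool.Agent.H32.Dense Pool.STK

namespace VSM

variable {Ω₂ : Type} [Fintype Ω₂] {n : ℕ}

/-- Expectation of a product. -/
lemma Ex_prod (q : Fin n → Ω₂ → ℝ) (h : Fin n → Ω₂ → ℝ) :
    Ex (fun w : Fin n → Ω₂ => ∏ l, q l (w l)) (fun w => ∏ l, h l (w l)) = ∏ l, Ex (q l) (h l) := by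
  unfold Ex
  rw [← PRD.sum_prod (fun l x => q l x * h l x)]
  exact Finset.sum_congr rfl fun w _ => (Finset.prod_mul_distrib).symm

/-- Expectation of a function of one coordinate. -/
lemma Ex_one (q : Fin n → Ω₂ → ℝ) (h1 : ∀ l, ∑ x, q l x = 1) (a : Fin n) (f : Ω₂ → ℝ) :
    Ex (fun w : Fin n → Ω₂ => ∏ l, q l (w l)) (fun w => f (w a)) = Ex (q a) f := by
  have e1 := Ex_prod q (fun l x => if l = a then f x else 1)
  have e2 : (fun w : Fin n → Ω₂ => ∏ l, (if l = a then f (w l) else 1)) = fun w => f (w a) := by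
    funext w
    rw [Finset.prod_ite_eq' Finset.univ a (fun l => f (w l))]
    simp
  rw [e2] at e1
  rw [e1, Finset.prod_eq_single a]
  · simp
  · intro b _ hb
    simp only [if_neg hb]
    exact Ex_const (h1 b) 1
  · intro h
    exact absurd (Finset.mem_univ _) h

/-- Expectation of a product of functions of two coordinates. -/
lemma Ex_two (q : Fin n → Ω₂ → ℝ) (_h1 : ∀ l, ∑ x, q l x = 1) {a b : Fin n} (hab : a ≠ b)
    (f g : Ω₂ → ℝ) (hf : Ex (q a) f = 0) :
    Ex (fun w : Fin n → Ω₂ => ∏ l, q l (w l)) (fun w => f (w a) * g (w b)) = 0 := by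
  have e1 := Ex_prod q (fun l x => (if l = a then f x else 1) * (if l = b then g x else 1))
  have e2 : (fun w : Fin n → Ω₂ => ∏ l, ((if l = a then f (w l) else 1) *
      (if l = b then g (w l) else 1))) = fun w => f (w a) * g (w b) := by
    funext w
    rw [Finset.prod_mul_distrib, Finset.prod_ite_eq' Finset.univ a (fun l => f (w l)),
      Finset.prod_ite_eq' Finset.univ b (fun l => g (w l))]
    simp
  rw [e2] at e1
  rw [e1]
  refine Finset.prod_eq_zero (Finset.mem_univ a) ?_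
  simp only [if_true, if_neg hab, mul_one]
  exact hf

/-- The variance of a sum of independent variables. -/
lemma Var_prod (q : Fin n → Ω₂ → ℝ) (h1 : ∀ l, ∑ x, q l x = 1) (c : ℝ) (f : Ω₂ → ℝ) :
    Var (fun w : Fin n → Ω₂ => ∏ l, q l (w l)) (fun w => c + ∑ l, f (w l)) =
      ∑ l, Var (q l) f := by
  have hq1 : ∑ w : Fin n → Ω₂, ∏ l, q l (w l) = 1 := by
    rw [PRD.sum_prod (fun l x => q l x)]
    exact Finset.prod_eq_one fun l _ => h1 l
  have Ex_sum : ∀ (ι : Type) (s : Finset ι) (r : (Fin n → Ω₂) → ℝ) (g : ι → (Fin n → Ω₂) → ℝ),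
      Ex r (fun w => ∑ i ∈ s, g i w) = ∑ i ∈ s, Ex r (g i) := by
    intro ι s r g
    unfold Ex
    rw [Finset.sum_comm]
    exact Finset.sum_congr rfl fun w _ => Finset.mul_sum _ _ _
  set r : (Fin n → Ω₂) → ℝ := fun w => ∏ l, q l (w l) with hr
  have hm : Ex r (fun w => c + ∑ l, f (w l)) = c + ∑ l, Ex (q l) f := by
    rw [Ex_add, Ex_const hq1, Ex_sum]
    congr 1
    exact Finset.sum_congr rfl fun l _ => Ex_one q h1 l f
  have h2 := Ex_sq_sub hq1 (fun w => c + ∑ l, f (w l)) (c + ∑ l, Ex (q l) f)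
  rw [← hr] at h2
  rw [hm, sub_self, zero_pow two_ne_zero, add_zero] at h2
  rw [← h2]
  have e1 : ∀ w : Fin n → Ω₂, (c + ∑ l, f (w l) - (c + ∑ l, Ex (q l) f)) ^ 2 =
      ∑ a, ∑ b, (f (w a) - Ex (q a) f) * (f (w b) - Ex (q b) f) := by
    intro w
    rw [← Finset.sum_mul_sum, ← pow_two, Finset.sum_sub_distrib]
    ring
  simp_rw [e1]
  rw [Ex_sum]
  refine Finset.sum_congr rfl fun a _ => ?_
  rw [Ex_sum, Finset.sum_eq_single a]
  · have e3 := Ex_one q h1 a (fun x => (f x - Ex (q a) f) ^ 2)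
    rw [Ex_sq_sub (h1 a), sub_self, zero_pow two_ne_zero, add_zero] at e3
    rw [← e3]
    congr 1
    funext w
    ring
  · intro b _ hb
    refine Ex_two q h1 (Ne.symm hb) (fun x => f x - Ex (q a) f) (fun x => f x - Ex (q b) f) ?_
    rw [Ex_sub, Ex_const (h1 a), sub_self]
  · intro h
    exact absurd (Finset.mem_univ _) h

end VSM

theorem vsm_thm : VSMStmt := by
  classical
  intro Ω₁ Ω₂ T _ _ p₁ p₂ F f Z n hp₁ hp₂
  have hprd := prd_thm Ω₂ (Fin n) Unit p₂ hp₂
  have hpr2 := pr2_thm Ω₁ (Fin n → Ω₂) Unit Unit p₁ (prd p₂) hp₁ hprd.1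
  set W : Ω₁ × (Fin n → Ω₂) → Ω₁ × (Fin n → T) := fun w => (w.1, fun l => Z (w.2 l)) with hW
  -- the law of the context
  have hlaw : ∀ (a : Ω₁) (z : Fin n → T), law (ps p₁ p₂ n) W (a, z) =
      p₁ a * ∏ l, law p₂ Z (z l) := by
    intro a z
    have h1 := PRD.law_prd (ι := Fin n) p₂ (fun _ => Z) z
    rw [← h1]
    unfold law ps pr2
    rw [Fintype.sum_prod_type, Finset.sum_eq_single a, Finset.mul_sum]
    · refine Finset.sum_congr rfl fun b _ => ?_
      simp only [hW, Prod.mk.injEq, true_and]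
      split_ifs <;> ring
    · intro b _ hb
      refine Finset.sum_eq_zero fun c _ => ?_
      simp only [hW, Prod.mk.injEq]
      rw [if_neg (fun h => hb h.1)]
    · intro h
      exact absurd (Finset.mem_univ _) h
  -- the variance under the conditional law
  have key : ∀ w₀ : Ω₁ × (Fin n → Ω₂), 0 < ps p₁ p₂ n w₀ →
      Var (cond (ps p₁ p₂ n) W (W w₀)) (fun w => F w.1 + ∑ l, f (w.2 l)) =
        ∑ l, Var (cond p₂ Z (Z (w₀.2 l))) f := by
    intro w₀ hw₀
    have ha : 0 < p₁ w₀.1 := by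
      refine lt_of_le_of_ne (hp₁.nonneg _) fun h => ?_
      unfold ps pr2 at hw₀
      rw [← h, zero_mul] at hw₀
      exact lt_irrefl _ hw₀
    have hb : ∀ l, 0 < p₂ (w₀.2 l) := by
      intro l
      refine lt_of_le_of_ne (hp₂.nonneg _) fun h => ?_
      have h0 : prd p₂ w₀.2 = 0 := Finset.prod_eq_zero (Finset.mem_univ l) h.symm
      unfold ps pr2 at hw₀
      rw [h0, mul_zero] at hw₀
      exact lt_irrefl _ hw₀
    have hZl : ∀ l, 0 < law p₂ Z (Z (w₀.2 l)) := fun l => law_pos hp₂.nonneg Z (hb l)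
    have hcond : ∀ a b, cond (ps p₁ p₂ n) W (W w₀) (a, b) =
        if a = w₀.1 then ∏ l, cond p₂ Z (Z (w₀.2 l)) (b l) else 0 := by
      intro a b
      have h1 : law (ps p₁ p₂ n) W (W w₀) = p₁ w₀.1 * ∏ l, law p₂ Z (Z (w₀.2 l)) :=
        hlaw w₀.1 _
      have h2 : (∏ l, cond p₂ Z (Z (w₀.2 l)) (b l)) =
          if (fun l => Z (b l)) = (fun l => Z (w₀.2 l)) then
            (∏ l, p₂ (b l)) / ∏ l, law p₂ Z (Z (w₀.2 l)) else 0 := by
        by_cases h : (fun l => Z (b l)) = (fun l => Z (w₀.2 l))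
        · rw [if_pos h, ← Finset.prod_div_distrib]
          refine Finset.prod_congr rfl fun l _ => ?_
          unfold Pool.Agent.H49.Ent.cond
          rw [if_pos (congrFun h l)]
        · rw [if_neg h]
          have : ∃ l, Z (b l) ≠ Z (w₀.2 l) := by
            by_contra hcon
            push Not at hcon
            exact h (funext hcon)
          obtain ⟨l, hl⟩ := this
          refine Finset.prod_eq_zero (Finset.mem_univ l) ?_
          unfold Pool.Agent.H49.Ent.cond
          rw [if_neg hl]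
      rw [h2]
      unfold Pool.Agent.H49.Ent.cond
      rw [h1]
      simp only [hW, Prod.mk.injEq]
      by_cases h3 : a = w₀.1
      · rw [if_pos h3]
        by_cases h4 : (fun l => Z (b l)) = (fun l => Z (w₀.2 l))
        · rw [if_pos h4, if_pos ⟨h3, h4⟩, h3]
          unfold ps pr2 prd
          have : (∏ l, law p₂ Z (Z (w₀.2 l))) ≠ 0 :=
            (Finset.prod_pos fun l _ => hZl l).ne'
          field_simp
        · rw [if_neg h4, if_neg (fun h => h4 h.2)]
      · rw [if_neg h3, if_neg (fun h => h3 h.1)]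
    have hEx : ∀ g : Ω₁ × (Fin n → Ω₂) → ℝ, Ex (cond (ps p₁ p₂ n) W (W w₀)) g =
        Ex (fun b : Fin n → Ω₂ => ∏ l, cond p₂ Z (Z (w₀.2 l)) (b l)) (fun b => g (w₀.1, b)) := by
      intro g
      unfold Ex
      rw [Fintype.sum_prod_type, Finset.sum_eq_single w₀.1]
      · refine Finset.sum_congr rfl fun b _ => ?_
        rw [hcond, if_pos rfl]
      · intro a _ ha'
        refine Finset.sum_eq_zero fun b _ => ?_
        rw [hcond, if_neg ha', zero_mul]
      · intro h
        exact absurd (Finset.mem_univ _) h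
    have h3 := VSM.Var_prod (fun l => cond p₂ Z (Z (w₀.2 l)))
      (fun l => sum_cond p₂ Z (hZl l).ne') (F w₀.1) f
    rw [← h3]
    unfold Var
    rw [hEx, hEx]
  -- averaging
  unfold cVar
  have h4 : Ex (ps p₁ p₂ n) (fun w => Var (cond (ps p₁ p₂ n) W (W w))
      (fun w => F w.1 + ∑ l, f (w.2 l))) =
      Ex (ps p₁ p₂ n) (fun w => ∑ l, Var (cond p₂ Z (Z (w.2 l))) f) := by
    unfold Ex
    refine Finset.sum_congr rfl fun w _ => ?_
    rcases (hpr2.1.nonneg w).eq_or_lt with h0 | h0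
    · have : ps p₁ p₂ n w = 0 := h0.symm
      rw [this, zero_mul, zero_mul]
    · beta_reduce
      rw [key w h0]
  rw [h4]
  have h5 : Ex (ps p₁ p₂ n) (fun w => ∑ l, Var (cond p₂ Z (Z (w.2 l))) f) =
      ∑ l : Fin n, Ex (ps p₁ p₂ n) (fun w => Var (cond p₂ Z (Z (w.2 l))) f) := by
    unfold Ex
    rw [Finset.sum_comm]
    exact Finset.sum_congr rfl fun w _ => Finset.mul_sum _ _ _
  have h6 : ∀ l : Fin n, Ex (ps p₁ p₂ n) (fun w => Var (cond p₂ Z (Z (w.2 l))) f) =
      Ex p₂ (fun x => Var (cond p₂ Z (Z x)) f) := by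
    intro l
    have m1 := hpr2.2.2.1
    have m2 : Marg (prd p₂ : (Fin n → Ω₂) → ℝ) p₂ (fun w => w l) :=
      PRD.marg_prd hp₂.sum_one l
    exact (m1.comp m2).ex (fun x => Var (cond p₂ Z (Z x)) f)
  rw [h5, Finset.sum_congr rfl fun l _ => h6 l, Finset.sum_const, Finset.card_univ,
    Fintype.card_fin, nsmul_eq_mul]

end Pool.KVA
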